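import Mathlib

/-!
# MP_ff748e_nt: practical numbers and the denominator of `σ(n)/n`
-/

namespace Pool.Agent.Results.MP_ff748e_nt.OddMultiperfect

/-- the sum of the divisors of `k`. -/
def s (k : ℕ) : ℕ := ∑ d ∈ k.divisors, d

/-- the denominator `n / gcd(n, σ(n))` of `σ(n)/n` in lowest terms. -/
def a (n : ℕ) : ℕ := n / Nat.gcd n (s n)

/-- `m` is practical: `m ≥ 1` and every `k` with `1 ≤ k ≤ σ(m)` is a sum of distinct
divisors of `m`. -/
def Practical (m : ℕ) : Prop :=
  1 ≤ m ∧ ∀ k, 1 ≤ k → k ≤ s m → ∃ S : Finset ℕ, S ⊆ m.divisors ∧ ∑ d ∈ S, d = k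

lemma s_mul {m n : ℕ} (h : m.Coprime n) : s (m * n) = s m * s n := by
  unfold s
  exact h.sum_divisors_mul

lemma s_one : s 1 = 1 := by simp [s]

lemma s_ge (t : ℕ) (ht : 0 < t) : t ≤ s t := by
  unfold s
  exact Finset.single_le_sum (f := fun d => d) (fun _ _ => Nat.zero_le _)
    (Nat.mem_divisors_self t ht.ne')

lemma practical_zero {m : ℕ} (h : Practical m) (k : ℕ) (hk : k ≤ s m) :
    ∃ S : Finset ℕ, S ⊆ m.divisors ∧ ∑ d ∈ S, d = k := by
  rcases Nat.eq_zero_or_pos k with rfl | h0
  · exact ⟨∅, Finset.empty_subset _, rfl⟩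
  · exact h.2 k h0 hk

lemma practical_one : Practical 1 := by
  refine ⟨le_rfl, fun k h1 h2 => ?_⟩
  rw [s_one] at h2
  have : k = 1 := by omega
  subst this
  exact ⟨{1}, by simp, by simp⟩

lemma s_pow_succ {m p : ℕ} (hp : p.Prime) (hm : ¬ p ∣ m) (e : ℕ) :
    s (m * p ^ (e + 1)) = s (m * p ^ e) + p ^ (e + 1) * s m := by
  have hc : ∀ e, m.Coprime (p ^ e) := fun e =>
    Nat.Coprime.pow_right _ (((Nat.Prime.coprime_iff_not_dvd hp).2 hm).symm)
  rw [s_mul (hc _), s_mul (hc _)]
  unfold s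
  rw [Nat.sum_divisors_prime_pow hp, Nat.sum_divisors_prime_pow hp, Finset.sum_range_succ]
  ring

lemma s_pow_ge {m p : ℕ} (hp : p.Prime) (hm : ¬ p ∣ m) (hle : p ≤ s m + 1) (e : ℕ) :
    p ^ (e + 1) ≤ s (m * p ^ e) + 1 := by
  induction e with
  | zero => simpa using hle
  | succ e ih =>
    rw [s_pow_succ hp hm]
    have h1 : p ^ (e + 1) * p ≤ p ^ (e + 1) * (s m + 1) := Nat.mul_le_mul_left _ hle
    have h2 : p ^ (e + 1 + 1) = p ^ (e + 1) * p := pow_succ _ _
    have h3 : p ^ (e + 1) * (s m + 1) = p ^ (e + 1) * s m + p ^ (e + 1) := by ring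
    omega

/-- the sufficient condition for practical numbers. -/
lemma practical_mul {m p : ℕ} (hm : Practical m) (hp : p.Prime) (hpm : ¬ p ∣ m)
    (hle : p ≤ s m + 1) (e : ℕ) : Practical (m * p ^ e) := by
  induction e with
  | zero => simpa using hm
  | succ e ih =>
    have hm1 := hm.1
    have hppos := hp.pos
    refine ⟨Nat.succ_le_of_lt (Nat.mul_pos (by omega) (pow_pos hppos _)), fun k hk1 hk2 => ?_⟩
    rw [s_pow_succ hp hpm] at hk2
    have hpe : 0 < p ^ (e + 1) := by positivity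
    obtain ⟨x, y, hx, hy, hxy⟩ : ∃ x y, x ≤ s m ∧ y ≤ s (m * p ^ e) ∧
        p ^ (e + 1) * x + y = k := by
      rcases Nat.lt_or_ge (k / p ^ (e + 1)) (s m) with h | h
      · refine ⟨k / p ^ (e + 1), k % p ^ (e + 1), h.le, ?_, Nat.div_add_mod _ _⟩
        have h1 := Nat.mod_lt k hpe
        have h2 := s_pow_ge hp hpm hle e
        omega
      · refine ⟨s m, k - p ^ (e + 1) * s m, le_rfl, by omega, ?_⟩
        have h1 : p ^ (e + 1) * s m ≤ p ^ (e + 1) * (k / p ^ (e + 1)) := Nat.mul_le_mul_left _ h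
        have h2 := Nat.mul_div_le k (p ^ (e + 1))
        omega
    obtain ⟨S1, hS1, hx1⟩ := practical_zero hm x hx
    obtain ⟨S2, hS2, hy1⟩ := practical_zero ih y hy
    have hinj : Function.Injective (fun d => p ^ (e + 1) * d) := fun u v h =>
      Nat.eq_of_mul_eq_mul_left hpe h
    refine ⟨S1.map ⟨_, hinj⟩ ∪ S2, ?_, ?_⟩
    · apply Finset.union_subset
      · intro d hd
        simp only [Finset.mem_map, Function.Embedding.coeFn_mk] at hd
        obtain ⟨c, hc, rfl⟩ := hd
        have := Nat.mem_divisors.1 (hS1 hc)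
        rw [Nat.mem_divisors, mul_comm m]
        exact ⟨Nat.mul_dvd_mul_left _ this.1, by positivity⟩
      · refine hS2.trans (Nat.divisors_subset_of_dvd (by positivity) ?_)
        exact Nat.mul_dvd_mul_left _ (pow_dvd_pow p (Nat.le_succ e))
    · rw [Finset.sum_union, Finset.sum_map, hy1]
      · simp only [Function.Embedding.coeFn_mk]
        rw [← Finset.mul_sum, hx1, hxy]
      · rw [Finset.disjoint_left]
        intro d hd1 hd2
        simp only [Finset.mem_map, Function.Embedding.coeFn_mk] at hd1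
        obtain ⟨c, hc, rfl⟩ := hd1
        have h1 := (Nat.mem_divisors.1 (hS2 hd2)).1
        have h2 : p ^ (e + 1) ∣ m * p ^ e := (Dvd.intro c rfl).trans h1
        rw [pow_succ', Nat.mul_dvd_mul_iff_right (by positivity)] at h2
        exact hpm h2

/-- a number that is not practical splits off a factor with large primes. -/
lemma exists_split (n : ℕ) (hn : 1 ≤ n) (hnp : ¬ Practical n) :
    ∃ m M, n = m * M ∧ m.Coprime M ∧ 1 < M ∧ 1 ≤ m ∧
      ∀ q, q.Prime → q ∣ M → s m + 1 < q := by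
  classical
  let T : Finset ℕ := n.divisors.filter (fun m => Practical m ∧ m.Coprime (n / m))
  have hT : T.Nonempty := by
    refine ⟨1, ?_⟩
    rw [Finset.mem_filter, Nat.mem_divisors]
    exact ⟨⟨one_dvd _, by omega⟩, practical_one, Nat.coprime_one_left _⟩
  obtain ⟨m, hmT, hmax⟩ := T.exists_max_image id hT
  rw [Finset.mem_filter, Nat.mem_divisors] at hmT
  obtain ⟨⟨hmn, -⟩, hmp, hcop⟩ := hmT
  have hn' : n = m * (n / m) := (Nat.mul_div_cancel' hmn).symm
  set M := n / m with hM
  have hm1 := hmp.1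
  have hMpos : 0 < M := by
    rcases Nat.eq_zero_or_pos M with h | h
    · rw [h] at hn'; omega
    · exact h
  refine ⟨m, M, hn', hcop, ?_, hm1, ?_⟩
  · by_contra h
    have : M = 1 := by omega
    rw [this, mul_one] at hn'
    rw [hn'] at hnp
    exact hnp hmp
  · intro q hq hqM
    by_contra hle
    push Not at hle
    have hqm : ¬ q ∣ m := fun h =>
      hq.one_lt.ne' (Nat.eq_one_of_dvd_coprimes hcop h hqM)
    obtain ⟨e, M', hM', hMe⟩ := Nat.exists_eq_pow_mul_and_not_dvd hMpos.ne' q hq.ne_one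
    have he : e ≠ 0 := by
      rintro rfl
      rw [pow_zero, one_mul] at hMe
      rw [← hMe] at hM'
      exact hM' hqM
    have hpr := practical_mul hmp hq hqm hle e
    have hn2 : n = (m * q ^ e) * M' := by rw [mul_assoc, ← hMe]; exact hn'
    have hqe : 0 < q ^ e := pow_pos hq.pos e
    have hdiv : n / (m * q ^ e) = M' := by
      rw [hn2]
      exact Nat.mul_div_cancel_left _ (by positivity)
    have hmem : m * q ^ e ∈ T := by
      rw [Finset.mem_filter, Nat.mem_divisors, hdiv]
      refine ⟨⟨⟨M', hn2⟩, by omega⟩, hpr, ?_⟩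
      apply Nat.Coprime.mul_left
      · exact Nat.Coprime.coprime_dvd_right ⟨q ^ e, by rw [hMe]; ring⟩ hcop
      · exact Nat.Coprime.pow_left _ ((Nat.Prime.coprime_iff_not_dvd hq).2 hM')
    have h1 := hmax _ hmem
    simp only [id] at h1
    have h2 : 2 ≤ q ^ e := by
      calc 2 ≤ q := hq.two_le
        _ = q ^ 1 := (pow_one q).symm
        _ ≤ q ^ e := Nat.pow_le_pow_right hq.pos (by omega)
    nlinarith

lemma a_mul (n : ℕ) : a n * Nat.gcd n (s n) = n := Nat.div_mul_cancel (Nat.gcd_dvd_left _ _)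

/-- if `a n` is practical and `n` is not, there is an odd multiperfect number `> 1`. -/
lemma key (n : ℕ) (hn : 1 ≤ n) (hnp : ¬ Practical n) (han : Practical (a n)) :
    ∃ M, 1 < M ∧ ¬ 2 ∣ M ∧ M ∣ s M := by
  obtain ⟨m, M, hnm, hcop, hM1, hm1, hq⟩ := exists_split n hn hnp
  refine ⟨M, hM1, ?_, ?_⟩
  · intro h2
    have h3 := hq 2 Nat.prime_two h2
    have h4 := s_ge m hm1
    omega
  · have hadvd : a n ∣ n := ⟨_, (a_mul n).symm⟩
    have hapos : 0 < a n := han.1
    have hcopa : M.Coprime (a n) := by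
      by_contra hne
      obtain ⟨q, hqp, hqM, hqa⟩ := Nat.Prime.not_coprime_iff_dvd.1 hne
      have h1 := hq q hqp hqM
      have h2 : q ≤ s (a n) := (Nat.le_of_dvd hapos hqa).trans (s_ge _ hapos)
      obtain ⟨S, hS, hsum⟩ := han.2 (s m + 1) (by omega) (by omega)
      have hSm : S ⊆ m.divisors := by
        intro d hd
        have hdle : d ≤ s m + 1 := by
          rw [← hsum]
          exact Finset.single_le_sum (f := fun d => d) (fun _ _ => Nat.zero_le _) hd
        have hda := (Nat.mem_divisors.1 (hS hd)).1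
        have hdn : d ∣ m * M := by rw [← hnm]; exact hda.trans hadvd
        have hdpos : 0 < d := Nat.pos_of_dvd_of_pos hda hapos
        have hdc : d.Coprime M := by
          by_contra hne2
          obtain ⟨r, hr, hrd, hrM⟩ := Nat.Prime.not_coprime_iff_dvd.1 hne2
          have h3 := hq r hr hrM
          have h4 := Nat.le_of_dvd hdpos hrd
          omega
        rw [Nat.mem_divisors]
        exact ⟨hdc.dvd_of_dvd_mul_right hdn, by omega⟩
      have h5 : ∑ d ∈ S, d ≤ s m := Finset.sum_le_sum_of_subset hSm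
      omega
    have h1 : M ∣ a n * Nat.gcd n (s n) := by
      rw [a_mul]
      exact ⟨m, by rw [hnm]; ring⟩
    have h2 : M ∣ Nat.gcd n (s n) := hcopa.dvd_of_dvd_mul_left h1
    have h3 : M ∣ s m * s M := by
      rw [← s_mul hcop, ← hnm]
      exact h2.trans (Nat.gcd_dvd_right _ _)
    have hspos : 0 < s m := lt_of_lt_of_le hm1 (s_ge m hm1)
    have h4 : M.Coprime (s m) := by
      by_contra hne
      obtain ⟨q, hqp, hqM, hqs⟩ := Nat.Prime.not_coprime_iff_dvd.1 hne
      have h5 := hq q hqp hqM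
      have h6 := Nat.le_of_dvd hspos hqs
      omega
    exact h4.dvd_of_dvd_mul_left h3

/-- an odd number greater than one is not practical. -/
lemma odd_not_practical (M : ℕ) (hM : 1 < M) (hodd : ¬ 2 ∣ M) : ¬ Practical M := by
  intro h
  obtain ⟨S, hS, hsum⟩ := h.2 2 (by norm_num) (by have := s_ge M (by omega); omega)
  have hsub : S ⊆ {1} := by
    intro d hd
    have h1 : d ≤ 2 := by
      rw [← hsum]
      exact Finset.single_le_sum (f := fun d => d) (fun _ _ => Nat.zero_le _) hd
    have h2 := (Nat.mem_divisors.1 (hS hd)).1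
    have h3 : d ≠ 2 := by rintro rfl; exact hodd h2
    have h4 : 0 < d := Nat.pos_of_dvd_of_pos h2 (by omega)
    rw [Finset.mem_singleton]
    omega
  have h5 : ∑ d ∈ S, d ≤ ∑ d ∈ ({1} : Finset ℕ), d := Finset.sum_le_sum_of_subset hsub
  rw [Finset.sum_singleton] at h5
  omega

/-- **Main result.**  The assertion of Q1 (for every `n ≥ 1`, if `a n` is practical then `n` is
practical) holds if and only if there is no odd `M > 1` with `M ∣ σ(M)`. -/
theorem result :
    (∀ n, 1 ≤ n → Practical (a n) → Practical n) ↔ ¬ ∃ M, 1 < M ∧ Odd M ∧ M ∣ s M := by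
  constructor
  · rintro h ⟨M, hM, hodd, hdvd⟩
    have h2 : ¬ 2 ∣ M := by
      intro h2
      obtain ⟨c, hc⟩ := hodd
      omega
    apply odd_not_practical M hM h2
    apply h M (by omega)
    have : a M = 1 := by
      unfold a
      rw [Nat.gcd_eq_left hdvd]
      exact Nat.div_self (by omega)
    rw [this]
    exact practical_one
  · intro h n hn han
    by_contra hnp
    obtain ⟨M, hM, hodd, hdvd⟩ := key n hn hnp han
    exact h ⟨M, hM, Nat.odd_iff.2 (by omega), hdvd⟩

end Pool.Agent.Results.MP_ff748e_nt.OddMultiperfect
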